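import Pool.Agent.MWGI.StmtsN

/-!
# Block MWGI, row NRW: restriction of a pair of words to an active pair
-/

namespace Pool.Agent.MWGI.H10

open Pool.Agent.Helper14_MV Pool.Agent.Helper2_MV Pool.Agent.MVO Pool.Agent.MWL Pool.Agent.MWS
  Pool.Agent.MWH

/-- block by block -/
theorem rr_blocks (θ : FIC) : ∀ (k : ℕ) {B B' : ℕ → List ℕ}, (∀ j ≤ k, RR θ (B j) (B' j)) →
    RR θ (asm k B) (asm k B')
  | 0, _, _, h => h 0 (le_refl 0)
  | k + 1, B, B', h => by
    have h1 : RR θ (asm k B) (asm k B') := rr_blocks θ k fun j hj => h j (by omega)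
    have h2 : RR θ ((k + 2) :: B (k + 1)) ((k + 2) :: B' (k + 1)) := by
      have h3 := (RR.refl (β := θ) [k + 2]).append (h (k + 1) (le_refl _))
      simpa only [List.cons_append, List.nil_append] using h3
    exact h1.append h2

/-- the substitution -/
def hs (x a : ℕ) : ℕ → List ℕ := fun c => if c = x then [0] else if c = a then [1] else []

theorem hs_x (x a : ℕ) : hs x a x = [0] := by
  unfold hs
  rw [if_pos rfl]

theorem hs_a {x a : ℕ} (h : x ≠ a) : hs x a a = [1] := by
  unfold hs
  rw [if_neg (fun e => h e.symm), if_pos rfl]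

theorem hs_o {x a c : ℕ} (h : c ≠ x) (h' : c ≠ a) : hs x a c = [] := by
  unfold hs
  rw [if_neg h, if_neg h']

theorem fm_no {x a : ℕ} : ∀ l : List ℕ, a ∉ l → l.flatMap (hs x a) = X (l.count x)
  | [], _ => rfl
  | c :: l, h => by
    have h1 : c ≠ a := fun e => h (e ▸ List.mem_cons_self)
    have h2 := fm_no (x := x) l (fun e => h (List.mem_cons_of_mem _ e))
    rw [List.flatMap_cons, h2]
    by_cases hc : c = x
    · subst hc
      rw [hs_x, List.count_cons_self]
      rfl
    · rw [hs_o hc h1, List.count_cons_of_ne hc]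
      rfl

theorem fm_one {x a : ℕ} (hxa : x ≠ a) : ∀ l : List ℕ, l.count a = 1 →
    l.flatMap (hs x a) = X (cb l x a) ++ 1 :: X (l.count x - cb l x a)
  | [], h => by
    rw [List.count_nil] at h
    omega
  | c :: l, h => by
    by_cases hc : c = a
    · subst hc
      rw [List.count_cons_self] at h
      have h1 : c ∉ l := List.count_eq_zero.1 (by omega)
      have h2 : cb (c :: l) x c = 0 := by
        unfold MWGR.cb
        rw [List.takeWhile_cons_of_neg (by simp)]
        rfl
      rw [List.flatMap_cons, hs_a hxa, fm_no l h1, h2, List.count_cons_of_ne (fun e => hxa e.symm),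
        Nat.sub_zero]
      rfl
    · rw [List.count_cons_of_ne hc] at h
      have ih := fm_one hxa l h
      have h2 : cb (c :: l) x a = (c :: l.takeWhile (fun c => decide (c ≠ a))).count x := by
        unfold MWGR.cb
        rw [List.takeWhile_cons_of_pos (by simpa using hc)]
      rw [List.flatMap_cons, ih, h2]
      by_cases hx : c = x
      · subst hx
        rw [hs_x, List.count_cons_self, List.count_cons_self]
        have e : (List.takeWhile (fun c => decide (c ≠ a)) l).count c = cb l c a := rfl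
        rw [e, Nat.add_sub_add_right]
        rfl
      · rw [hs_o hx hc, List.count_cons_of_ne hx, List.count_cons_of_ne hx]
        rfl

theorem per_q {n : ℕ} {θ : FIC} (hp : MWZ.Per n (RR θ)) {s : ℕ} (hs : 2 ≤ s) :
    ∀ q, RR θ (X s) (X (s + q * n))
  | 0 => by
    rw [Nat.zero_mul, Nat.add_zero]
    exact RR.refl _
  | q + 1 => by
    have h1 := per_q hp hs q
    have h2 : RR θ (X (2 + (s - 2 + q * n))) (X (n + 2 + (s - 2 + q * n))) := by
      have h3 : RR θ (X 2 ++ X (s - 2 + q * n)) (X (n + 2) ++ X (s - 2 + q * n)) :=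
        RR.append hp (RR.refl _)
      rw [← List.replicate_add, ← List.replicate_add] at h3
      exact h3
    have e1 : 2 + (s - 2 + q * n) = s + q * n := by omega
    have e2 : n + 2 + (s - 2 + q * n) = s + (q + 1) * n := by
      rw [Nat.add_mul, Nat.one_mul]
      omega
    rw [e1, e2] at h2
    exact θ.trans h1 h2

theorem per_mod {n : ℕ} {θ : FIC} (hp : MWZ.Per n (RR θ)) {s t : ℕ} (hs : 2 ≤ s) (ht : 2 ≤ t)
    (h : s ≡ t [MOD n]) : RR θ (X s) (X t) := by
  rcases le_total s t with h1 | h1
  · obtain ⟨q, hq⟩ := (Nat.modEq_iff_dvd' h1).1 h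
    have e : t = s + q * n := by
      rw [Nat.mul_comm]
      omega
    rw [e]
    exact per_q hp hs q
  · obtain ⟨q, hq⟩ := (Nat.modEq_iff_dvd' h1).1 h.symm
    have e : s = t + q * n := by
      rw [Nat.mul_comm]
      omega
    rw [e]
    exact (per_q hp ht q).symm

/-- the insertion -/
def Qn (n i p : ℕ) (B : ℕ → List ℕ) (x : ℕ) : ℕ → List ℕ := fun j =>
  if j = i ∨ j = p then [] else if x ∈ B j then X ((n - 1) * (B j).count x + 2 * n) else []

/-- the blocks -/
theorem blocks {n k i p x a : ℕ} {θ : FIC} (h1n : 1 ≤ n) (hp : MWZ.Per n (RR θ))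
    {B C : ℕ → List ℕ} (hxa : x ≠ a) (hip : i ≠ p)
    (hi : (C i).count a = 1) (hpa : (C p).count a = 1) (hpx : (C p).count x = 0)
    (hz : ∀ j ≤ k, j ≠ i → j ≠ p → (C j).count a = 0)
    (hc : ∀ j ≤ k, (C j).count x ≡ (B j).count x [MOD n])
    (h0 : ∀ j ≤ k, (B j).count x = 0 → (C j).count x = 0) :
    RR θ (asm k (fun j => [] ++ (C j).flatMap (hs x a) ++ Qn n i p B x j))
      (asm k (wz n i p (Zx B x) (cb (C i) x a) ((C i).count x - cb (C i) x a))) := by
  refine rr_blocks θ k fun j hj => ?_
  unfold wz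
  by_cases hji : j = i
  · subst hji
    have hQ : Qn n j p B x j = [] := by
      unfold Qn
      rw [if_pos (Or.inl rfl)]
    rw [if_pos rfl, hQ, List.nil_append, List.append_nil, fm_one hxa _ hi]
    exact RR.refl _
  rw [if_neg hji]
  by_cases hjp : j = p
  · subst hjp
    have hQ : Qn n i j B x j = [] := by
      unfold Qn
      rw [if_pos (Or.inr rfl)]
    have hcb : cb (C j) x a = 0 := by
      unfold MWGR.cb
      have h1 : (List.takeWhile (fun c => decide (c ≠ a)) (C j)).count x ≤ (C j).count x :=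
        (List.takeWhile_sublist _).count_le x
      omega
    rw [if_pos rfl, hQ, List.nil_append, List.append_nil, fm_one hxa _ hpa, hcb, hpx]
    exact RR.refl _
  rw [if_neg hjp]
  have hQ : Qn n i p B x j = if x ∈ B j then X ((n - 1) * (B j).count x + 2 * n) else [] := by
    unfold Qn
    rw [if_neg (by tauto)]
  rw [hQ, List.nil_append, fm_no _ (List.count_eq_zero.1 (hz j hj hji hjp))]
  unfold Zx
  by_cases hx : x ∈ B j
  · rw [if_pos hx, if_pos (decide_eq_true hx), ← List.replicate_add]
    refine per_mod hp (by omega) (by omega) ?_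
    have h2 : (C j).count x + ((n - 1) * (B j).count x + 2 * n) ≡
        (B j).count x + ((n - 1) * (B j).count x + 2 * n) [MOD n] := (hc j hj).add_right _
    have h3 : (B j).count x + ((n - 1) * (B j).count x + 2 * n) = 2 * n + n * (B j).count x := by
      obtain ⟨r, rfl⟩ : ∃ r, n = r + 1 := ⟨n - 1, by omega⟩
      rw [Nat.add_sub_cancel]
      ring
    rw [h3] at h2
    exact h2.trans (by
      have h4 : 2 * n + n * (B j).count x ≡ 2 * n + 0 [MOD n] :=
        Nat.ModEq.add_left _ ((Nat.modEq_zero_iff_dvd).2 ⟨_, rfl⟩)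
      exact h4)
  · rw [if_neg hx, if_neg (by rw [decide_eq_true_iff]; exact hx),
      h0 j hj (List.count_eq_zero.2 hx)]
    exact RR.refl _

/-- **NRW** -/
theorem nrw : NrwStmt := by
  intro n k θ B B' hbi hf hr i p x a ha
  have h1 := rr_ins θ (fun _ => []) (Qn n i p B x) (hs x a) hf.ok.ok hf.ok'.ok hr
  have ea : ∀ j ≤ k, (B j).count a ≤ 1 → (B' j).count a = (B j).count a := by
    intro j hj hle
    rcases hf.eq a ha.na j hj with h | h
    · exact h.symm
    · have h2 : 2 ≤ (B j).count a := h.1
      omega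
  have ex : ∀ j ≤ k, (B j).count x ≤ 1 → (B' j).count x = (B j).count x := by
    intro j hj hle
    rcases hf.eq x ha.nx j hj with h | h
    · exact h.symm
    · have h2 : 2 ≤ (B j).count x := h.1
      omega
  have hpx : (B p).count x = 0 := List.count_eq_zero.2 ha.xp
  have hz : ∀ j ≤ k, j ≠ i → j ≠ p → (B j).count a = 0 := fun j hj h h' =>
    List.count_eq_zero.2 (ha.az j hj h h')
  have h2 := blocks (θ := θ) hbi.pos hbi.per (B := B) (C := B) ha.xa ha.ip ha.ai ha.ap hpx hz
    (fun j _ => Nat.ModEq.refl _) (fun j _ h => h)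
  have h3 := blocks (θ := θ) hbi.pos hbi.per (B := B) (C := B') (k := k) ha.xa ha.ip
    (by rw [ea i ha.ik (by rw [ha.ai]), ha.ai])
    (by rw [ea p ha.pk (by rw [ha.ap]), ha.ap])
    (by rw [ex p ha.pk (by rw [hpx]; omega), hpx])
    (fun j hj h h' => by rw [ea j hj (by rw [hz j hj h h']; omega), hz j hj h h'])
    (fun j hj => by
      rcases hf.eq x ha.nx j hj with h | h
      · have h4 : (B j).count x = (B' j).count x := h
        rw [h4]
      · exact h.2.2.symm)
    (fun j hj h => by rw [ex j hj (by rw [h]; omega), h])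
  exact θ.trans h2.symm (θ.trans h1 h3)

end Pool.Agent.MWGI.H10
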